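import Pool.Agent.H29.UDP.TPro
import Pool.Agent.H95.LD.MOL

/-! Board udp_modules, row TRC: translation invariance in the continuum limit. -/

set_option autoImplicit false

open MeasureTheory SchwartzMap Filter Topology
open scoped ENNReal ContDiff InnerProductSpace FourierTransform

namespace Pool.Agent.H96.UDP

open Pool.Agent.H43.DPC (V S SD moment trans rot dualMap IsMAO IsDC Diag Nn pm cell cut box sepBox
  Cond2 Cond3)
open Pool.Agent.H43.DPCS (TransInv Cond123 IsDPC)
open Pool.Agent.H80.LD (Re IsField pair ml RPos Dom LocP)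
open Pool.Agent.H29.UDP

noncomputable section

theorem eval_cont {d : ℕ} (f : S d) : Continuous (fun T : SD d => T f) :=
  WeakDual.eval_continuous f

theorem cs_abs {Ω : Type*} [MeasurableSpace Ω] (ν : Measure Ω) [IsProbabilityMeasure ν]
    (g : Ω → ℝ) (hg : MemLp g 2 ν) (B : ℝ) (hB : 0 ≤ B) (h : ∫ x, g x ^ 2 ∂ν ≤ B ^ 2) :
    ∫ x, |g x| ∂ν ≤ B := by
  have h1 : Integrable (fun x => |g x|) ν := (hg.integrable (by norm_num)).abs
  have h2 : Integrable (fun x => g x ^ 2) ν := hg.integrable_sq
  set c : ℝ := ∫ x, |g x| ∂ν with hc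
  have h3 : 0 ≤ ∫ x, (|g x| - c) ^ 2 ∂ν := integral_nonneg fun x => sq_nonneg _
  have h4 : ∫ x, (|g x| - c) ^ 2 ∂ν = ∫ x, g x ^ 2 ∂ν - c ^ 2 := by
    have h5 : ∀ x, (|g x| - c) ^ 2 = g x ^ 2 - 2 * c * |g x| + c ^ 2 := by
      intro x
      rw [← sq_abs (g x)]
      ring
    simp only [h5]
    rw [integral_add (f := fun x => g x ^ 2 - 2 * c * |g x|) (g := fun _ => c ^ 2)
      (h2.sub (h1.const_mul _)) (integrable_const _),
      integral_sub h2 (h1.const_mul _), integral_const_mul, integral_const, ← hc]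
    simp
    ring
  have h6 : c ^ 2 ≤ B ^ 2 := by linarith
  exact (le_abs_self c).trans (abs_le_of_sq_le_sq h6 hB)

theorem exp_diff (x y : ℝ) :
    ‖Complex.exp (Complex.I * (x : ℂ)) - Complex.exp (Complex.I * (y : ℂ))‖ ≤ |x - y| := by
  have h1 : Complex.exp (Complex.I * (x : ℂ)) - Complex.exp (Complex.I * (y : ℂ)) =
      Complex.exp (Complex.I * (y : ℂ)) * (Complex.exp (Complex.I * ((x - y : ℝ) : ℂ)) - 1) := by
    rw [mul_sub, ← Complex.exp_add, mul_one]
    congr 2
    push_cast
    ring
  rw [h1, norm_mul, Complex.norm_exp_I_mul_ofReal, one_mul]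
  exact Real.norm_exp_I_mul_ofReal_sub_one_le

theorem ipt_tendsto {d : ℕ} (v : V d) (δ : ℕ → ℝ) (hδ : ∀ k, 0 < δ k)
    (hδ0 : Tendsto δ atTop (𝓝 0)) :
    Tendsto (fun k => ipt (δ k) (fun j => ⌊v j / δ k⌋)) atTop (𝓝 v) := by
  have h0 : ∀ j : Fin d, Tendsto (fun k => δ k * ((⌊v j / δ k⌋ : ℤ) : ℝ)) atTop (𝓝 (v j)) := by
    intro j
    have h1 : Tendsto (fun k => v j - δ k) atTop (𝓝 (v j)) := by
      have := (tendsto_const_nhds (x := v j)).sub hδ0
      simpa using this
    refine tendsto_of_tendsto_of_tendsto_of_le_of_le h1 tendsto_const_nhds (fun k => ?_)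
      (fun k => ?_)
    · have h2 := Int.lt_floor_add_one (v j / δ k)
      rw [div_lt_iff₀ (hδ k)] at h2
      show v j - δ k ≤ _
      nlinarith
    · have h2 := Int.floor_le (v j / δ k)
      rw [le_div_iff₀ (hδ k)] at h2
      show _ ≤ v j
      linarith
  have h1 : Tendsto (fun k => (fun j => δ k * ((⌊v j / δ k⌋ : ℤ) : ℝ)) : ℕ → Fin d → ℝ) atTop
      (𝓝 (fun j => v j)) := tendsto_pi_nhds.2 h0
  have h2 := ((PiLp.continuous_toLp 2 (fun _ : Fin d => ℝ)).tendsto _).comp h1
  exact h2

theorem pm_cont {d : ℕ} (m : ℕ) : Continuous (fun f : S d => pm m f) := by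
  have h1 : ∀ t : Finset (ℕ × ℕ), Continuous
      (fun f : S d => (t.sup (schwartzSeminormFamily ℝ (V d) ℝ)) f) := by
    intro t
    induction t using Finset.induction_on with
    | empty =>
      simp only [Finset.sup_empty]
      exact continuous_const
    | insert i t hi ih =>
      rw [Finset.sup_insert]
      have h2 := (schwartz_withSeminorms ℝ (V d) ℝ).continuous_seminorm i
      exact (h2.sup ih : _)
  exact h1 _

theorem pf_TRC (hECF : Pool.Agent.H80.LD.T_ECF) : T_TRC := by
  intro d ν μ δ C m hν hμ hC hδ hδ0 hinv hsq v T hT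
  obtain ⟨D, hD, hTD⟩ := hT
  have hDt : ∀ f, D f = trans v f := fun f => SchwartzMap.ext (fun x => hD f x)
  have hTf : ∀ φ f, T φ f = φ (trans v f) := by
    intro φ f
    rw [hTD, one_mul, hDt]
  have hcont : Continuous T := by
    refine WeakDual.continuous_of_continuous_eval (fun f => ?_)
    have : (fun φ => T φ f) = fun φ : SD d => φ (trans v f) := funext fun φ => hTf φ f
    rw [this]
    exact eval_cont _
  have hTm : Measurable T := hcont.measurable
  haveI := hμ
  have hme : ∀ f : S d, Continuous (fun φ : SD d => Complex.exp (Complex.I * ((φ f : ℝ) : ℂ))) := by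
    intro f
    exact Complex.continuous_exp.comp
      (continuous_const.mul (Complex.continuous_ofReal.comp (eval_cont f)))
  refine hECF d (μ.map T) μ (Measure.isProbabilityMeasure_map hTm.aemeasurable) hμ (fun f => ?_)
  rw [integral_map hTm.aemeasurable (hme f).aestronglyMeasurable]
  simp only [hTf]
  set u : ℕ → V d := fun k => ipt (δ k) (fun j => ⌊v j / δ k⌋) with hu
  have hz : Tendsto u atTop (𝓝 v) := ipt_tendsto v δ hδ hδ0
  have hpc : Continuous (fun g : S d => pm m g) := pm_cont m
  have hpm : Tendsto (fun k => |C| * pm m (trans v f - trans (u k) f)) atTop (𝓝 0) := by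
    have h1 : Tendsto (fun k => trans v f - trans (u k) f) atTop (𝓝 (trans v f - trans v f)) :=
      tendsto_const_nhds.sub (((Pool.Agent.H95.LD.trans_cont f).tendsto v).comp hz)
    have h2 := (hpc.tendsto _).comp h1
    rw [sub_self] at h2
    have h3 : pm m (0 : S d) = 0 := map_zero _
    rw [h3] at h2
    simpa using h2.const_mul |C|
  have hdiff : ∀ k, ‖(∫ φ : SD d, Complex.exp (Complex.I * ((φ (trans v f) : ℝ) : ℂ)) ∂(ν k)) -
      ∫ φ : SD d, Complex.exp (Complex.I * ((φ f : ℝ) : ℂ)) ∂(ν k)‖ ≤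
      |C| * pm m (trans v f - trans (u k) f) := by
    intro k
    haveI := (hν k).1
    rw [← hinv k _ f]
    have hi : ∀ g : S d, Integrable
        (fun φ : SD d => Complex.exp (Complex.I * ((φ g : ℝ) : ℂ))) (ν k) := by
      intro g
      refine Integrable.of_bound (hme g).aestronglyMeasurable 1 (Eventually.of_forall fun φ => ?_)
      rw [Complex.norm_exp_I_mul_ofReal]
    rw [← integral_sub (hi _) (hi _)]
    refine (norm_integral_le_integral_norm _).trans ?_
    have hML : MemLp (fun φ : SD d => φ (trans v f - trans (u k) f)) 2 (ν k) :=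
      (hν k).2 _ 2 (by norm_num)
    refine le_trans ?_ (cs_abs (ν k) _ hML (|C| * pm m (trans v f - trans (u k) f))
      (mul_nonneg (abs_nonneg _) (apply_nonneg _ _)) ?_)
    · refine integral_mono_of_nonneg (Eventually.of_forall fun φ => norm_nonneg _)
        (hML.integrable (by norm_num)).abs (Eventually.of_forall fun φ => ?_)
      show _ ≤ |φ (trans v f - trans (u k) f)|
      rw [map_sub]
      exact exp_diff _ _
    · have := hsq k (trans v f - trans (u k) f)
      rw [mul_pow, sq_abs, ← mul_pow]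
      exact this
  have h1 := (hC (trans v f)).sub (hC f)
  have h4 := squeeze_zero_norm hdiff hpm
  exact sub_eq_zero.1 (tendsto_nhds_unique h1 h4)

end

end Pool.Agent.H96.UDP
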