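import Pool.Agent.H29.UDP.TPro

/-! Board udp_modules, row TGT: tightness from second moments. -/

set_option autoImplicit false

open MeasureTheory SchwartzMap Filter Topology
open scoped ENNReal ContDiff InnerProductSpace FourierTransform

namespace Pool.Agent.H96.UDP.TGT

open Pool.Agent.H43.DPC (V S SD moment trans rot dualMap IsMAO IsDC Diag Nn pm cell cut box sepBox
  Cond2 Cond3)
open Pool.Agent.H43.DPCS (TransInv Cond123 IsDPC)
open Pool.Agent.H80.LD (Re IsField pair ml RPos Dom LocP)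
open Pool.Agent.H29.UDP

noncomputable section

theorem eval_cont {d : ℕ} (f : S d) : Continuous (fun T : SD d => T f) :=
  WeakDual.eval_continuous f

theorem cs_abs {Ω : Type*} [MeasurableSpace Ω] (ν : Measure Ω) [IsProbabilityMeasure ν]
    (g : Ω → ℝ) (hg : MemLp g 2 ν) (B : ℝ) (hB : 0 ≤ B) (h : ∫ x, g x ^ 2 ∂ν ≤ B ^ 2) :
    ∫ x, |g x| ∂ν ≤ B := by
  have h1 : Integrable (fun x => |g x|) ν := (hg.integrable (by norm_num)).abs
  have h2 : Integrable (fun x => g x ^ 2) ν := hg.integrable_sq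
  set c : ℝ := ∫ x, |g x| ∂ν with hc
  have h3 : 0 ≤ ∫ x, (|g x| - c) ^ 2 ∂ν := integral_nonneg fun x => sq_nonneg _
  have h4 : ∫ x, (|g x| - c) ^ 2 ∂ν = ∫ x, g x ^ 2 ∂ν - c ^ 2 := by
    have h5 : ∀ x, (|g x| - c) ^ 2 = g x ^ 2 - 2 * c * |g x| + c ^ 2 := by
      intro x
      rw [← sq_abs (g x)]
      ring
    simp only [h5]
    rw [integral_add (f := fun x => g x ^ 2 - 2 * c * |g x|) (g := fun _ => c ^ 2)
      (h2.sub (h1.const_mul _)) (integrable_const _),
      integral_sub h2 (h1.const_mul _), integral_const_mul, integral_const, ← hc]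
    simp
    ring
  have h6 : c ^ 2 ≤ B ^ 2 := by linarith
  exact (le_abs_self c).trans (abs_le_of_sq_le_sq h6 hB)

theorem pf_TGT (hFRM : T_FRM) : T_TGT := by
  intro d m C
  obtain ⟨h, c, M, hc, hsum, hbd⟩ := hFRM d m
  refine ⟨M, fun ε hε => ?_⟩
  have hpm : ∀ i, 0 ≤ pm m (h i) := fun i => apply_nonneg _ _
  set S0 : ℝ := ∑' i, c i * (1 + pm m (h i)) with hS0
  have hterm : ∀ i, 0 ≤ c i * (1 + pm m (h i)) := fun i =>
    mul_nonneg (hc i).le (by linarith [hpm i])
  have hS00 : 0 ≤ S0 := tsum_nonneg hterm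
  refine ⟨(|C| * S0 + 1) / ε, by positivity, fun ν hν hML hsq => ?_⟩
  haveI := hν
  set R : ℝ := (|C| * S0 + 1) / ε with hR
  have hR0 : 0 < R := by positivity
  set Y : SD d → ℝ≥0∞ := fun T => ∑' i, ENNReal.ofReal (c i * |T (h i)|) with hY
  have hcont : ∀ i, Continuous (fun T : SD d => c i * |T (h i)|) := fun i =>
    continuous_const.mul (eval_cont (h i)).abs
  have hmeas : ∀ i, Measurable (fun T : SD d => ENNReal.ofReal (c i * |T (h i)|)) := fun i =>
    (hcont i).measurable.ennreal_ofReal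
  have hYm : Measurable Y := Measurable.ennreal_tsum hmeas
  have hlin : ∫⁻ T, Y T ∂ν ≤ ENNReal.ofReal (|C| * S0) := by
    rw [hY, lintegral_tsum fun i => (hmeas i).aemeasurable]
    have h1 : ∀ i, ∫⁻ T : SD d, ENNReal.ofReal (c i * |T (h i)|) ∂ν ≤
        ENNReal.ofReal (|C| * (c i * (1 + pm m (h i)))) := by
      intro i
      have hint : Integrable (fun T : SD d => |T (h i)|) ν :=
        ((hML (h i)).integrable (by norm_num)).abs
      rw [← ofReal_integral_eq_lintegral_ofReal (hint.const_mul (c i))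
        (Eventually.of_forall fun T => mul_nonneg (hc i).le (abs_nonneg _))]
      refine ENNReal.ofReal_le_ofReal ?_
      rw [integral_const_mul]
      have h2 := cs_abs ν _ (hML (h i)) (|C| * pm m (h i)) (mul_nonneg (abs_nonneg _) (hpm i)) (by
        have := hsq (h i)
        rw [mul_pow, sq_abs, ← mul_pow]
        exact this)
      have h3 : |C| * pm m (h i) ≤ |C| * (1 + pm m (h i)) :=
        mul_le_mul_of_nonneg_left (by linarith) (abs_nonneg _)
      calc c i * ∫ T : SD d, |T (h i)| ∂ν ≤ c i * (|C| * (1 + pm m (h i))) :=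
            mul_le_mul_of_nonneg_left (h2.trans h3) (hc i).le
        _ = |C| * (c i * (1 + pm m (h i))) := by ring
    refine (ENNReal.tsum_le_tsum h1).trans ?_
    rw [← ENNReal.ofReal_tsum_of_nonneg (fun i => mul_nonneg (abs_nonneg _) (hterm i))
      (hsum.mul_left _), tsum_mul_left]
  have hsub : {T : SD d | ∀ f : S d, |T f| ≤ R * pm M f}ᶜ ⊆ {T | ENNReal.ofReal R ≤ Y T} := by
    intro T hT
    by_contra hlt
    rw [Set.mem_setOf_eq, not_le] at hlt
    refine hT (fun f => ?_)
    have hne : Y T ≠ ⊤ := (hlt.trans ENNReal.ofReal_lt_top).ne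
    have hnn : ∀ i, 0 ≤ c i * |T (h i)| := fun i => mul_nonneg (hc i).le (abs_nonneg _)
    have hs : Summable (fun i => c i * |T (h i)|) := by
      have h1 := ENNReal.summable_toReal hne
      simpa only [ENNReal.toReal_ofReal (hnn _)] using h1
    have h2 : ENNReal.ofReal (∑' i, c i * |T (h i)|) < ENNReal.ofReal R := by
      rw [ENNReal.ofReal_tsum_of_nonneg hnn hs]
      exact hlt
    have h3 : ∑' i, c i * |T (h i)| < R := (ENNReal.ofReal_lt_ofReal_iff hR0).1 h2
    have h4 := hbd T f hs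
    have h5 : 0 ≤ pm M f := apply_nonneg _ _
    calc |T f| ≤ pm M f * ∑' i, c i * |T (h i)| := h4
      _ ≤ pm M f * R := mul_le_mul_of_nonneg_left h3.le h5
      _ = R * pm M f := mul_comm _ _
  refine (measure_mono hsub).trans ?_
  have hRne : ENNReal.ofReal R ≠ 0 := by
    rw [Ne, ENNReal.ofReal_eq_zero, not_le]
    exact hR0
  refine (meas_ge_le_lintegral_div hYm.aemeasurable hRne ENNReal.ofReal_ne_top).trans ?_
  refine (ENNReal.div_le_div_right hlin _).trans ?_
  rw [← ENNReal.ofReal_div_of_pos hR0]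
  refine ENNReal.ofReal_le_ofReal ?_
  rw [hR, div_div_eq_mul_div, div_le_iff₀ (by positivity)]
  nlinarith [mul_nonneg (abs_nonneg C) hS00]

end

end Pool.Agent.H96.UDP.TGT
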